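import Pool.Agent.Helper15.GS.GoalsD
import Pool.Agent.Helper8.HS.TRI

/-! # Packet GS-GVOL: the total volume -/

open Complex Metric Set Filter Topology MeasureTheory
open scoped ContDiff ComplexConjugate ComplexOrder Manifold Matrix

namespace Pool.Agent.Helper8.GS

open Pool.Agent.Helper95.Lin Pool.Agent.Helper16.Abund Pool.Agent.Helper92.Orb
  Pool.Agent.Helper10.SP Pool.Agent.Helper95.RK Pool.Agent.Helper57.HS
  Pool.Agent.Helper15.HS Pool.Agent.Helper15.GS Pool.Agent.Helper15.RK
open Pool.Agent.Helper62.SP (Jm det_Jm)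

universe u v

theorem cont_mat {α : Type*} [TopologicalSpace α] {n : ℕ} {S : Set α}
    {A : α → Matrix (Fin n) (Fin n) ℂ} (hA : ∀ i j, ContinuousOn (fun x => A x i j) S) :
    ContinuousOn A S :=
  continuousOn_pi.2 fun i => continuousOn_pi.2 fun j => hA i j

theorem cont_mul {α : Type*} [TopologicalSpace α] {n : ℕ} {S : Set α}
    {A B : α → Matrix (Fin n) (Fin n) ℂ} (hA : ContinuousOn A S) (hB : ContinuousOn B S) :
    ContinuousOn (fun p => A p * B p) S := by
  refine cont_mat fun i j => ?_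
  simp only [Matrix.mul_apply]
  exact continuousOn_finsetSum _ fun k _ =>
    ((continuousOn_pi.1 (continuousOn_pi.1 hA i) k).mul
      (continuousOn_pi.1 (continuousOn_pi.1 hB k) j))

theorem cont_trace {α : Type*} [TopologicalSpace α] {n : ℕ} {S : Set α}
    {A : α → Matrix (Fin n) (Fin n) ℂ} (hA : ContinuousOn A S) :
    ContinuousOn (fun p => Matrix.trace (A p)) S := by
  simp only [Matrix.trace, Matrix.diag_apply]
  exact continuousOn_finsetSum _ fun i _ => continuousOn_pi.1 (continuousOn_pi.1 hA i) i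

theorem intOn_test {n : ℕ} {T : Set (Cn n)} {κ : Cn n → ℝ} (hT : IsOpen T) (hκ : TestF T κ)
    {g : Cn n → ℝ} (hg : ContinuousOn g T) : IntegrableOn (fun x => κ x * g x) T := by
  obtain ⟨h1, h2, h3⟩ := hκ
  have hK : IntegrableOn (fun x => κ x * g x) (tsupport κ) :=
    (h1.continuous.continuousOn.mul (hg.mono h3)).integrableOn_compact h2
  refine hK.of_forall_sdiff_eq_zero hT.measurableSet fun x hx => ?_
  rw [image_eq_zero_of_notMem_tsupport hx.2, zero_mul]

theorem arr_density {n : ℕ}
    {Y : Cn n → Matrix (Fin n) (Fin n) ℂ} {τ : Cn n → Cn n} {x : Cn n}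
    (h : Y x = Jm τ x * Y (τ x) * (Jm τ x)ᴴ) :
    (Y x).det.re = (Y (τ x)).det.re * ‖(fderiv ℂ τ x).det‖ ^ 2 := by
  rw [h, Matrix.det_mul, Matrix.det_mul, Matrix.det_conjTranspose, det_Jm]
  have : (Jm τ x).det * (Y (τ x)).det * star (Jm τ x).det =
      ((‖(Jm τ x).det‖ ^ 2 : ℝ) : ℂ) * (Y (τ x)).det := by
    rw [← Complex.normSq_eq_norm_sq, Complex.normSq_eq_conj_mul_self, Complex.star_def]
    ring
  rw [this, Complex.re_ofReal_mul, mul_comm]

/-- **GVOL** -/
theorem gvol (hWIRT : S_WIRT) (hDETI : S_DETI.{u}) (hRHOI : S_RHOI.{u}) (hMOMG : S_MOMG.{u})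
    (hGRBC : S_GRBC) (hRKD : S_RKD) (hPOSK : S_POSK.{u}) : S_GVOL.{u} := by
  intro n T G _ R H h hG κ hκ k p hp0 hV P hP1 hP2 hP3 hP4 hP5 hP6
  have hTo : IsOpen T := hG.ket.et.isOpen
  have hHT : HerT T R H := ⟨hG.ket.posDef, hG.ket.smooth, fun U τ hτ => hG.ket.inv U τ hτ⟩
  obtain ⟨a1, a2, a3, a4⟩ := hRHOI T R h hG.ket.et hG.her
  obtain ⟨b1, b2, b3, -, b5⟩ := hRHOI T R H hG.ket.et hHT
  obtain ⟨c1, c2⟩ := b5 h hG.her
  obtain ⟨-, d2, d3, -⟩ := hDETI T R H hG.ket
  have hθ : ∀ x ∈ T, (rho h x).PosSemidef := fun x hx =>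
    ((hGRBC T hTo h hG.her.posDef hG.her.smooth hG.gsn).2 x hx).2.2
  have hr := fun x (hx : x ∈ T) => hRKD k (H x) (h x) (rho h x) (P x) (hG.ket.posDef x hx)
    (hG.her.posDef x hx) (hθ x hx) (hP2 x hx) (hP4 x hx) (hP3 x hx) (hP6 x hx)
  have cr : ContinuousOn (rho h) T := cont_mat fun i j => (a1.smooth i j).continuousOn
  have ch : ContinuousOn h T := cont_mat fun i j => (hG.her.smooth i j).continuousOn
  have cH : ContinuousOn H T := cont_mat fun i j => (hG.ket.smooth i j).continuousOn
  have cHi : ContinuousOn (fun x => (H x)⁻¹) T := cont_mat fun i j => (d3 i j).continuousOn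
  have cP : ContinuousOn P T := cont_mat fun i j => (hP1 i j).continuousOn
  set F : Cn n → ℝ := fun x => (rho h x + P x * h x).det.re with hF
  have cF : ContinuousOn F T := Complex.continuous_re.comp_continuousOn
    (Pool.Agent.Helper8.HS.cont_det (cr.add (cont_mul cP ch)))
  have hF0 : ∀ x ∈ T, 0 ≤ F x := fun x hx => (hr x hx).1.1
  have hnn : 0 ≤ ∫ x in T, κ x * F x :=
    setIntegral_nonneg hTo.measurableSet fun x hx => mul_nonneg (hκ.nonneg x) (hF0 x hx)
  rcases hnn.lt_or_eq with hlt | heq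
  · exact hlt
  exfalso
  have hFz : ∀ x ∈ T, F x = 0 := by
    refine hPOSK hG.ket.et κ hκ F ⟨cF, ?_, heq.symm⟩ hF0
    intro U τ hτ x hx
    have e1 := Pool.Agent.Helper8.HS.arr_mat a2 hτ hx
    have e2 := Pool.Agent.Helper8.HS.arr_mat hP5 hτ hx
    refine arr_density (Y := fun x => rho h x + P x * h x) ?_
    have e3 : rho h x + P x * h x =
        Jm τ x * (rho h (τ x) + P (τ x) * h (τ x)) * (Jm τ x)ᴴ := by
      rw [Matrix.mul_add, Matrix.add_mul, ← e1, ← e2]
    exact e3
  -- the volume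
  have hcd : ∀ (l : Fin n) (c : ℂ) (x : Cn n), cd l (fun _ => c) x = 0 := by
    intro l c x
    simp [cd]
  have hVs : ∀ s : ℝ, VolP T κ H s = ∫ x in T, κ x * (rho h x + (s : ℂ) • H x).det.re := by
    intro s
    have hZ : CHF (fun x => rho H x + (s : ℂ) • H x) T := by
      refine ⟨fun i j => ?_, fun x hx => ?_, fun x hx i j l => ?_⟩
      · exact (b1.smooth i j).add (contDiffOn_const.mul (hG.ket.smooth i j))
      · refine (b1.herm x hx).add ?_
        have := (hG.ket.posDef x hx).isHermitian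
        unfold Matrix.IsHermitian at this ⊢
        rw [Matrix.conjTranspose_smul, this, Complex.star_def, Complex.conj_ofReal]
      · have key : ∀ i j l : Fin n, cd l (fun y => (rho H y + (s : ℂ) • H y) i j) x =
            cd l (fun y => rho H y i j) x + (s : ℂ) * cd l (fun y => H y i j) x := by
          intro i j l
          have s1 : ContDiffOn ℝ ∞ (fun y => (s : ℂ) * H y i j) T :=
            contDiffOn_const.mul (hG.ket.smooth i j)
          have k1 := ((hWIRT T hTo _ _ (b1.smooth i j) s1).2.1 l x hx).1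
          have k2 := ((hWIRT T hTo (fun _ => (s : ℂ)) _ contDiffOn_const
            (hG.ket.smooth i j)).2.2.1 l x hx).1
          rw [hcd, mul_zero, add_zero] at k2
          rw [← k2, ← k1]
          rfl
        rw [key, key, b1.closed x hx i j l, hG.ket.closed x hx i j l]
    have hZi : InvH R (fun x => rho H x + (s : ℂ) • H x) := by
      intro U τ hτ x hx u w
      have e1 := b2 U τ hτ x hx u w
      have e2 := hG.ket.inv U τ hτ x hx u w
      have e3 : ∀ (A B : Matrix (Fin n) (Fin n) ℂ) (u w : Fin n → ℂ),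
          hermi (A + (s : ℂ) • B) u w = hermi A u w + s * hermi B u w := by
        intro A B u w
        unfold hermi
        simp only [Matrix.add_apply, Matrix.smul_apply, smul_eq_mul, Finset.mul_sum,
          ← Finset.sum_add_distrib]
        refine Finset.sum_congr rfl fun a _ => Finset.sum_congr rfl fun b _ => ?_
        ring
      rw [e3, e3, e1, e2]
    have := hMOMG T R H hG.ket κ hκ _ hZ hZi _ c1
    unfold VolP
    rw [← this]
    refine setIntegral_congr_fun hTo.measurableSet fun x hx => ?_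
    refine congrArg (fun M : Matrix (Fin n) (Fin n) ℂ => κ x * M.det.re) ?_
    rw [c2 x hx]
    abel
  set B : ℝ := ∫ x in T, κ x * ((H x).det.re *
    (1 + (Matrix.trace (rho h x * (H x)⁻¹)).re) ^ n) with hB
  have hpB : ∀ s : ℝ, 0 < s → s ≤ 1 → p.eval s ≤ s * B := by
    intro s hs hs1
    have e1 : s ^ k * p.eval s ≤ s ^ (k + 1) * B := by
      rw [← hV s, hVs s, hB, ← integral_const_mul]
      have i1 : IntegrableOn (fun x => κ x * (rho h x + (s : ℂ) • H x).det.re) T :=
        intOn_test hTo hκ.test (Complex.continuous_re.comp_continuousOn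
          (Pool.Agent.Helper8.HS.cont_det (cr.add (cH.const_smul (s : ℂ)))))
      have i2 : IntegrableOn (fun x => κ x * ((H x).det.re *
          (1 + (Matrix.trace (rho h x * (H x)⁻¹)).re) ^ n)) T :=
        intOn_test hTo hκ.test (d2.continuousOn.mul ((continuousOn_const.add
          (Complex.continuous_re.comp_continuousOn (cont_trace (cont_mul cr cHi)))).pow n))
      refine setIntegral_mono_on i1 (i2.const_mul _) hTo.measurableSet fun x hx => ?_
      have e2 := ((hr x hx).2 (hFz x hx) s hs hs1).2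
      calc κ x * (rho h x + (s : ℂ) • H x).det.re ≤ κ x * _ :=
            mul_le_mul_of_nonneg_left e2 (hκ.nonneg x)
        _ = _ := by ring
    have hsk : 0 < s ^ k := by positivity
    have e3 : s ^ k * p.eval s ≤ s ^ k * (s * B) := by
      calc s ^ k * p.eval s ≤ s ^ (k + 1) * B := e1
        _ = _ := by ring
    exact le_of_mul_le_mul_left e3 hsk
  have ht1 : Tendsto (fun s : ℝ => p.eval s) (𝓝[>] 0) (𝓝 (p.eval 0)) :=
    (p.continuous.tendsto 0).mono_left nhdsWithin_le_nhds
  have ht2 : Tendsto (fun s : ℝ => s * B) (𝓝[>] 0) (𝓝 0) := by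
    have : Tendsto (fun s : ℝ => s * B) (𝓝 0) (𝓝 (0 * B)) :=
      (continuous_id.mul continuous_const).tendsto 0
    rw [zero_mul] at this
    exact this.mono_left nhdsWithin_le_nhds
  have hle : p.eval 0 ≤ 0 := by
    refine le_of_tendsto_of_tendsto ht1 ht2 ?_
    filter_upwards [Ioc_mem_nhdsGT (zero_lt_one (α := ℝ))] with s hs
    exact hpB s hs.1 hs.2
  linarith

end Pool.Agent.Helper8.GS
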